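import Mathlib
import Pool.Agent.H90.RankSpace
import Pool.Agent.H90.SingVal

/-!
# MP_62b2e8_nt: lattices of rank `2mn` in `M_n(ℂ)` with non-vanishing `Δ_m`

We prove Q1: if `1 ≤ m ≤ n` and some lattice `L ⊂ M_n(ℂ)` of rank `2mn` has `Δ_m(L) ≠ 0`, then
`m = n`, or `n = 2` and `m = 1`.
-/

open Module Matrix

namespace Pool.Agent.Results.MP_62b2e8_nt.RankTwoMN

/-- `lam X i` is `λ_{i+1}(X)`: the `(i+1)`-st smallest singular value of the `n × n` matrix `X`
(for `i < n`).  Mathlib's `singularValues` of the linear map `v ↦ X v` on `ℂⁿ` is the sequence of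
singular values in decreasing order, indexed from `0`. -/
noncomputable def lam {n : ℕ} (X : Matrix (Fin n) (Fin n) ℂ) (i : ℕ) : ℝ :=
  (Matrix.toEuclideanLin X).singularValues (n - 1 - i)

/-- `Δ_s(X) = ∏_{i=1}^s λ_i(X)²`. -/
noncomputable def Delta {n : ℕ} (s : ℕ) (X : Matrix (Fin n) (Fin n) ℂ) : ℝ :=
  ∏ i ∈ Finset.range s, (lam X i) ^ 2

/-- `L` is a matrix lattice of rank `k` in `M_n(ℂ)`. -/
def IsMatrixLattice {n : ℕ} (k : ℕ) (L : Set (Matrix (Fin n) (Fin n) ℂ)) : Prop :=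
  ∃ B : Fin k → Matrix (Fin n) (Fin n) ℂ, LinearIndependent ℝ B ∧
    L = Submodule.span ℤ (Set.range B)

/-- `Δ_s(L) = inf {Δ_s(X) : X ∈ L, X ≠ 0}`. -/
noncomputable def DeltaInf {n : ℕ} (s : ℕ) (L : Set (Matrix (Fin n) (Fin n) ℂ)) : ℝ :=
  sInf (Delta s '' (L \ {0}))

theorem Delta_nonneg {n : ℕ} (s : ℕ) (X : Matrix (Fin n) (Fin n) ℂ) : 0 ≤ Delta s X :=
  Finset.prod_nonneg fun _ _ => sq_nonneg _

/-- Simultaneous approximation: some multiple `t c` of a real vector `c` is close to an integer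
vector. -/
theorem approx {k : ℕ} (c : Fin k → ℝ) {δ : ℝ} (hδ : 0 < δ) :
    ∃ (t : ℝ) (z : Fin k → ℤ), 1 ≤ t ∧ ∀ i, |t * c i - z i| < δ := by
  let s : ℕ → (Fin k → ℝ) := fun j i => Int.fract ((j : ℝ) * c i)
  have hs : ∀ j, s j ∈ Set.Icc (0 : Fin k → ℝ) 1 := by
    intro j
    constructor
    · intro i
      exact Int.fract_nonneg _
    · intro i
      exact (Int.fract_lt_one _).le
  obtain ⟨a, -, φ, hφ, hlim⟩ := isCompact_Icc.tendsto_subseq hs
  have hc : CauchySeq (s ∘ φ) := hlim.cauchySeq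
  rw [Metric.cauchySeq_iff] at hc
  obtain ⟨N, hN⟩ := hc δ hδ
  have hd := hN (N + 1) (by omega) N le_rfl
  have hlt : φ N < φ (N + 1) := hφ (by omega)
  refine ⟨(φ (N + 1) : ℝ) - φ N, fun i => ⌊(φ (N + 1) : ℝ) * c i⌋ - ⌊(φ N : ℝ) * c i⌋, ?_, ?_⟩
  · have : ((φ N + 1 : ℕ) : ℝ) ≤ φ (N + 1) := by exact_mod_cast hlt
    push_cast at this
    linarith
  · intro i
    have h1 := (dist_pi_lt_iff hδ).1 hd i
    rw [Real.dist_eq] at h1
    have h2 : (s ∘ φ) (N + 1) i - (s ∘ φ) N i = ((φ (N + 1) : ℝ) - φ N) * c i -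
        ((⌊(φ (N + 1) : ℝ) * c i⌋ - ⌊(φ N : ℝ) * c i⌋ : ℤ) : ℝ) := by
      show Int.fract _ - Int.fract _ = _
      rw [← Int.self_sub_floor, ← Int.self_sub_floor]
      push_cast
      ring
    rw [h2] at h1
    exact h1

theorem finrank_ker_toEuclideanLin {n : ℕ} (X : Matrix (Fin n) (Fin n) ℂ) :
    finrank ℂ (LinearMap.ker (Matrix.toEuclideanLin X)) =
      finrank ℂ (LinearMap.ker X.mulVecLin) := by
  have h1 := LinearMap.finrank_range_add_finrank_ker (Matrix.toEuclideanLin X)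
  have h2 := LinearMap.finrank_range_add_finrank_ker X.mulVecLin
  have h3 : finrank ℂ (LinearMap.range (Matrix.toEuclideanLin X)) = X.rank := by
    rw [Matrix.toEuclideanLin_eq_toLin]
    exact (Matrix.rank_eq_finrank_range_toLin X _ _).symm
  have h4 : finrank ℂ (LinearMap.range X.mulVecLin) = X.rank := rfl
  have h5 : finrank ℂ (EuclideanSpace ℂ (Fin n)) = n := by simp
  have h6 : finrank ℂ (Fin n → ℂ) = n := by simp
  omega

/-- Lattice points with arbitrarily small `Δ_m`. -/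
theorem exists_small {n m k : ℕ} (hm : 1 ≤ m) (B : Fin k → Matrix (Fin n) (Fin n) ℂ)
    (hB : LinearIndependent ℝ B) (X0 : Matrix (Fin n) (Fin n) ℂ)
    (hX0 : X0 ∈ Submodule.span ℝ (Set.range B)) (hX00 : X0 ≠ 0)
    (hker : m ≤ finrank ℂ (LinearMap.ker X0.mulVecLin)) {ε : ℝ} (hε : 0 < ε) (hε1 : ε ≤ 1) :
    ∃ X ∈ Submodule.span ℤ (Set.range B), X ≠ 0 ∧ Delta m X ≤ ε := by
  obtain ⟨c, hc⟩ := (Submodule.mem_span_range_iff_exists_fun ℝ).1 hX0
  obtain ⟨i0, hi0⟩ : ∃ i, c i ≠ 0 := by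
    by_contra hcon
    push Not at hcon
    apply hX00
    rw [← hc]
    apply Finset.sum_eq_zero
    intro i _
    rw [hcon i, zero_smul]
  -- operator norms of the basis matrices
  have hop : ∀ i, ∃ C : ℝ, 0 ≤ C ∧ ∀ v, ‖Matrix.toEuclideanLin (B i) v‖ ≤ C * ‖v‖ := by
    intro i
    refine ⟨‖LinearMap.toContinuousLinearMap (Matrix.toEuclideanLin (B i))‖, norm_nonneg _, ?_⟩
    intro v
    exact (LinearMap.toContinuousLinearMap (Matrix.toEuclideanLin (B i))).le_opNorm v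
  choose C hC0 hC using hop
  set S : ℝ := ∑ i, C i with hS
  have hS0 : 0 ≤ S := Finset.sum_nonneg fun i _ => hC0 i
  set δ : ℝ := min (ε / (S + 1)) |c i0| with hδ
  have hδ0 : 0 < δ := lt_min (by positivity) (abs_pos.2 hi0)
  obtain ⟨t, z, ht, hz⟩ := approx c hδ0
  set X : Matrix (Fin n) (Fin n) ℂ := ∑ i, z i • B i with hX
  have hXmem : X ∈ Submodule.span ℤ (Set.range B) :=
    Submodule.sum_mem _ fun i _ => Submodule.smul_mem _ _ (Submodule.subset_span ⟨i, rfl⟩)
  have hz0 : z i0 ≠ 0 := by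
    intro h
    have h1 := hz i0
    rw [h, Int.cast_zero, sub_zero, abs_mul, abs_of_pos (by linarith : (0 : ℝ) < t)] at h1
    have h2 : |c i0| ≤ t * |c i0| := by nlinarith [abs_nonneg (c i0)]
    have h3 : δ ≤ |c i0| := min_le_right _ _
    linarith
  have hXreal : X = ∑ i, (z i : ℝ) • B i := by
    rw [hX]
    apply Finset.sum_congr rfl
    intro i _
    exact (Int.cast_smul_eq_zsmul ℝ (z i) (B i)).symm
  have hX0' : X ≠ 0 := by
    intro h
    rw [hXreal] at h
    have := Fintype.linearIndependent_iff.1 hB _ h i0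
    exact hz0 (by exact_mod_cast this)
  have hdiff : X = t • X0 - ∑ i, (t * c i - z i) • B i := by
    rw [hXreal, ← hc, Finset.smul_sum, ← Finset.sum_sub_distrib]
    apply Finset.sum_congr rfl
    intro i _
    rw [sub_smul, mul_smul]
    abel
  refine ⟨X, hXmem, hX0', ?_⟩
  -- bound on the kernel of `X0`
  have hsmall : ∀ u ∈ LinearMap.ker (Matrix.toEuclideanLin X0),
      ‖Matrix.toEuclideanLin X u‖ ≤ ε * ‖u‖ := by
    intro u hu
    have hu' : Matrix.toEuclideanLin X0 u = 0 := hu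
    have hreal : ∀ (a : ℝ) (Y : Matrix (Fin n) (Fin n) ℂ),
        Matrix.toEuclideanLin (a • Y) u = (a : ℂ) • Matrix.toEuclideanLin Y u := by
      intro a Y
      have : a • Y = (a : ℂ) • Y := by
        ext p q
        simp
      rw [this, map_smul, LinearMap.smul_apply]
    rw [hdiff, map_sub, LinearMap.sub_apply, hreal, hu', smul_zero, zero_sub, norm_neg, map_sum,
      LinearMap.sum_apply]
    calc ‖∑ i, Matrix.toEuclideanLin ((t * c i - z i) • B i) u‖
        ≤ ∑ i, ‖Matrix.toEuclideanLin ((t * c i - z i) • B i) u‖ := norm_sum_le _ _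
      _ ≤ ∑ i, δ * (C i * ‖u‖) := by
          apply Finset.sum_le_sum
          intro i _
          rw [hreal, norm_smul, Complex.norm_real, Real.norm_eq_abs]
          exact mul_le_mul (hz i).le (hC i u) (norm_nonneg _) hδ0.le
      _ = δ * S * ‖u‖ := by
          rw [← Finset.mul_sum, ← Finset.sum_mul]
          ring
      _ ≤ ε * ‖u‖ := by
          apply mul_le_mul_of_nonneg_right _ (norm_nonneg _)
          have h1 : δ ≤ ε / (S + 1) := min_le_left _ _
          have h2 : δ * S ≤ ε / (S + 1) * S := mul_le_mul_of_nonneg_right h1 hS0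
          have h3 : ε / (S + 1) * S ≤ ε := by
            rw [div_mul_eq_mul_div, div_le_iff₀ (by positivity)]
            nlinarith
          linarith
  have hsv : ∀ i ∈ Finset.range m, (lam X i) ^ 2 ≤ ε ^ 2 := by
    intro i hi
    have h1 := Pool.Agent.H90.SingVal.singularValues_le (Matrix.toEuclideanLin X)
      (n := n) (m := m) (by simp) (LinearMap.ker (Matrix.toEuclideanLin X0))
      (by rw [finrank_ker_toEuclideanLin]; exact hker) hε.le hsmall (Finset.mem_range.1 hi)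
    exact pow_le_pow_left₀ (LinearMap.singularValues_nonneg _ _) h1 2
  calc Delta m X ≤ ∏ _i ∈ Finset.range m, ε ^ 2 :=
        Finset.prod_le_prod (fun i _ => sq_nonneg _) hsv
    _ = (ε ^ 2) ^ m := by rw [Finset.prod_const, Finset.card_range]
    _ ≤ (ε ^ 2) ^ 1 := by
        apply pow_le_pow_of_le_one (by positivity) _ hm
        nlinarith
    _ ≤ ε := by nlinarith

/-- **Q1 of MP_62b2e8_nt.**  Let `n ≥ m ≥ 1`.  If there is a lattice `L ⊂ M_n(ℂ)` of rank `2mn`
with `Δ_m(L) ≠ 0`, then `m = n`, or `n = 2` and `m = 1`. -/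
theorem result (n m : ℕ) (hm : 1 ≤ m) (hmn : m ≤ n)
    (h : ∃ L : Set (Matrix (Fin n) (Fin n) ℂ), IsMatrixLattice (2 * m * n) L ∧
      DeltaInf m L ≠ 0) :
    m = n ∨ (n = 2 ∧ m = 1) := by
  obtain ⟨L, ⟨B, hB, hL⟩, hne⟩ := h
  by_contra hcon
  push Not at hcon
  obtain ⟨h1, h2⟩ := hcon
  have hlt : m < n := lt_of_le_of_ne hmn h1
  have hn3 : 3 ≤ n := by
    by_contra hn
    have : n = 2 := by omega
    have : m = 1 := by omega
    tauto
  have hrank : finrank ℝ (Submodule.span ℝ (Set.range B)) = 2 * m * n := by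
    rw [finrank_span_eq_card hB, Fintype.card_fin]
  obtain ⟨X0, hX0, hX00, hker⟩ := Pool.Agent.H90.RankSpace.exists_low_rank hn3 hm hlt
    (Submodule.span ℝ (Set.range B)) hrank.ge
  apply hne
  have hbdd : BddBelow (Delta m '' (L \ {0})) := by
    refine ⟨0, ?_⟩
    rintro _ ⟨X, -, rfl⟩
    exact Delta_nonneg m X
  have hle : ∀ ε : ℝ, 0 < ε → DeltaInf m L ≤ ε := by
    intro ε hε
    obtain ⟨X, hX, hX', hΔ⟩ := exists_small hm B hB X0 hX0 hX00 hker
      (lt_min hε one_pos) (min_le_right ε 1)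
    have hmem : Delta m X ∈ Delta m '' (L \ {0}) := by
      refine ⟨X, ⟨?_, hX'⟩, rfl⟩
      rw [hL]
      exact hX
    exact (csInf_le hbdd hmem).trans (hΔ.trans (min_le_left _ _))
  have hge : 0 ≤ DeltaInf m L := by
    apply Real.sInf_nonneg
    rintro _ ⟨X, -, rfl⟩
    exact Delta_nonneg m X
  exact le_antisymm (le_of_forall_pos_le_add fun ε hε => by
    rw [zero_add]; exact hle ε hε) hge

end Pool.Agent.Results.MP_62b2e8_nt.RankTwoMN
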